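import Pool.Agent.Helper89.TL.Rect
import Pool.Agent.Helper61.TL.Tile

/-!
Dissections of a rectangle into rectangles: the Euclidean algorithm cuts the rectangles into
squares.
-/

set_option autoImplicit false

namespace Pool.Agent.Helper72.TL

open Pool.Agent.Helper89.TL (RTiling In)

/-- A dissection of one rectangle into squares (exact labels). -/
structure Loc (X : Type*) [LinearOrder X] (a y w b : ℕ) (lo up lt rt : X ≃o X) (κ : Type) where
  al : κ → ℕ
  yt : κ → ℕ
  sz : κ → ℕ
  pos : ∀ f, 0 < sz f
  box : ∀ f, a ≤ al f ∧ al f + sz f ≤ a + w ∧ y ≤ yt f ∧ yt f + sz f ≤ y + b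
  cover : ∀ i j, In a w i → In y b j → ∃ f, In (al f) (sz f) i ∧ In (yt f) (sz f) j
  disj : ∀ f g i j, In (al f) (sz f) i → In (yt f) (sz f) j → In (al g) (sz g) i →
    In (yt g) (sz g) j → f = g
  L : κ → X ≃o X
  U : κ → X ≃o X
  S : κ → X ≃o X
  R : κ → X ≃o X
  bot : ∀ f, yt f = y → L f = lo
  top : ∀ f, yt f + sz f = y + b → U f = up
  vert : ∀ f g i, In (al f) (sz f) i → In (al g) (sz g) i → yt f + sz f = yt g → U f = L g
  left : ∀ f, al f = a → S f = lt
  right : ∀ f, al f + sz f = a + w → R f = rt
  horz : ∀ f g j, In (yt f) (sz f) j → In (yt g) (sz g) j → al f + sz f = al g → R f = S g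
  cell : ∀ f z, (U f * (L f)⁻¹) z ≤ (R f * (S f)⁻¹) z

/-- Roots of commuting automorphisms. -/
theorem le_of_pow_le {X : Type*} [LinearOrder X] {α β : X ≃o X} (hc : Commute α β) {n : ℕ}
    (hn : 0 < n) (h : ∀ z, (α ^ n) z ≤ (β ^ n) z) (z : X) : α z ≤ β z := by
  by_contra hcon
  rw [not_le] at hcon
  have key : ∀ m : ℕ, (β ^ m) z ≤ (α ^ m) z ∧ (β ^ (m + 1)) z < (α ^ (m + 1)) z := by
    intro m
    induction m with
    | zero => exact ⟨le_rfl, by simpa using hcon⟩
    | succ m ih =>
      refine ⟨ih.2.le, ?_⟩
      have h1 : (β ^ (m + 1 + 1)) z = (β ^ (m + 1)) (β z) := by rw [pow_succ]; rfl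
      have h2 : (β ^ (m + 1)) (α z) = α ((β ^ (m + 1)) z) := by
        have := congrArg (fun f : X ≃o X => f z) (hc.pow_right (m + 1)).eq
        exact this.symm
      have h3 : (α ^ (m + 1 + 1)) z = α ((α ^ (m + 1)) z) := by rw [pow_succ']; rfl
      rw [h1, h3]
      calc (β ^ (m + 1)) (β z) < (β ^ (m + 1)) (α z) := (β ^ (m + 1)).strictMono hcon
        _ = α ((β ^ (m + 1)) z) := h2
        _ ≤ α ((α ^ (m + 1)) z) := α.monotone ih.2.le
  obtain ⟨m, rfl⟩ : ∃ m, n = m + 1 := ⟨n - 1, by omega⟩
  exact absurd (h z) (not_le.2 (key m).2)

/-- The Euclidean algorithm. -/
theorem euclid {X : Type*} [LinearOrder X] : ∀ (N a y w b : ℕ) (lo up lt rt : X ≃o X), w + b ≤ N →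
    0 < w → 0 < b → Commute (up * lo⁻¹) (rt * lt⁻¹) →
    (∀ z, ((up * lo⁻¹) ^ w) z ≤ ((rt * lt⁻¹) ^ b) z) →
    ∃ (κ : Type) (_ : Fintype κ) (D : Loc X a y w b lo up lt rt κ),
      ∑ f, D.sz f = w + b - Nat.gcd w b := by
  intro N
  induction N with
  | zero => intro a y w b lo up lt rt h1 h2; omega
  | succ N ih =>
    intro a y w b lo up lt rt hN hw hb hc hs
    rcases lt_trichotomy w b with hwb | hwb | hwb
    · -- the square below
      set α := up * lo⁻¹ with hα
      set β := rt * lt⁻¹ with hβ
      have e1 : up * (β * lo)⁻¹ = α * β⁻¹ := by rw [hα]; group
      obtain ⟨κ, _, D, hD⟩ := ih a (y + w) w (b - w) (β * lo) up lt rt (by omega) hw (by omega)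
        (by
          rw [e1, ← hβ]
          exact (hc.mul_left (Commute.refl β).inv_left))
        (by
          intro z
          rw [e1, ← hβ]
          have h1 : (α * β⁻¹) ^ w = α ^ w * (β ^ w)⁻¹ := by
            rw [(hc.inv_right).mul_pow, inv_pow]
          have h2 : β ^ (b - w) = β ^ b * (β ^ w)⁻¹ := pow_sub β hwb.le
          rw [h1, h2]
          exact hs ((β ^ w)⁻¹ z))
      refine ⟨Option κ, inferInstance,
        { al := fun o => o.elim a D.al
          yt := fun o => o.elim y D.yt
          sz := fun o => o.elim w D.sz
          L := fun o => o.elim lo D.L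
          U := fun o => o.elim (β * lo) D.U
          S := fun o => o.elim lt D.S
          R := fun o => o.elim rt D.R
          pos := ?_, box := ?_, cover := ?_, disj := ?_, bot := ?_, top := ?_, vert := ?_,
          left := ?_, right := ?_, horz := ?_, cell := ?_ }, ?_⟩
      · rintro (_ | f)
        · exact hw
        · exact D.pos f
      · rintro (_ | f)
        · simp only [Option.elim]; omega
        · have := D.box f
          simp only [Option.elim]; omega
      · intro i j hi hj
        by_cases h : j < y + w
        · refine ⟨none, ?_, ?_⟩
          · simpa only [Option.elim] using hi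
          · simp only [Option.elim, In] at hj ⊢; omega
        · obtain ⟨f, h1, h2⟩ := D.cover i j hi (by simp only [In] at hj ⊢; omega)
          exact ⟨some f, h1, h2⟩
      · rintro (_ | f) (_ | g) i j h1 h2 h3 h4
        · rfl
        · exfalso
          have := D.box g
          simp only [Option.elim, In] at *; omega
        · exfalso
          have := D.box f
          simp only [Option.elim, In] at *; omega
        · exact congrArg some (D.disj f g i j h1 h2 h3 h4)
      · rintro (_ | f) h
        · rfl
        · exfalso
          have := D.box f
          simp only [Option.elim] at *; omega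
      · rintro (_ | f) h
        · exfalso
          simp only [Option.elim] at *; omega
        · simp only [Option.elim] at *
          exact D.top f (by omega)
      · rintro (_ | f) (_ | g) i h1 h2 h3
        · exfalso
          simp only [Option.elim] at *; omega
        · simp only [Option.elim] at *
          exact (D.bot g h3.symm).symm
        · exfalso
          have := D.box f
          simp only [Option.elim] at *; omega
        · exact D.vert f g i h1 h2 h3
      · rintro (_ | f) h
        · rfl
        · exact D.left f h
      · rintro (_ | f) h
        · rfl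
        · exact D.right f h
      · rintro (_ | f) (_ | g) j h1 h2 h3
        · exfalso
          simp only [Option.elim] at *; omega
        · exfalso
          have := D.box g
          simp only [Option.elim, In] at *; omega
        · exfalso
          have := D.box f
          simp only [Option.elim, In] at *; omega
        · exact D.horz f g j h1 h2 h3
      · rintro (_ | f) z
        · simp only [Option.elim]
          rw [← hβ, mul_assoc, mul_inv_cancel, mul_one]
        · exact D.cell f z
      · rw [Fintype.sum_option]
        simp only [Option.elim]
        rw [hD]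
        have h1 : Nat.gcd w (b - w) = Nat.gcd w b := by
          rw [Nat.gcd_sub_self_right hwb.le]
        have h2 : Nat.gcd w b ≤ w := Nat.gcd_le_left _ hw
        rw [h1]
        omega
    · -- a square
      subst hwb
      refine ⟨Unit, inferInstance,
        { al := fun _ => a
          yt := fun _ => y
          sz := fun _ => w
          L := fun _ => lo
          U := fun _ => up
          S := fun _ => lt
          R := fun _ => rt
          pos := fun _ => hw
          box := fun _ => ⟨le_rfl, le_rfl, le_rfl, le_rfl⟩
          cover := fun i j hi hj => ⟨(), hi, hj⟩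
          disj := fun _ _ _ _ _ _ _ _ => rfl
          bot := fun _ _ => rfl
          top := fun _ _ => rfl
          vert := fun _ _ _ _ _ h => absurd h (by omega)
          left := fun _ _ => rfl
          right := fun _ _ => rfl
          horz := fun _ _ _ _ _ h => absurd h (by omega)
          cell := fun _ z => le_of_pow_le hc hw hs z }, ?_⟩
      simp
    · -- the square on the left side
      set α := up * lo⁻¹ with hα
      set β := rt * lt⁻¹ with hβ
      have e1 : rt * (α * lt)⁻¹ = β * α⁻¹ := by rw [hβ]; group
      obtain ⟨κ, _, D, hD⟩ := ih (a + b) y (w - b) b lo up (α * lt) rt (by omega) (by omega) hb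
        (by
          rw [e1, ← hα]
          exact (hc.mul_right (Commute.refl α).inv_right))
        (by
          intro z
          rw [e1, ← hα]
          have h1 : (β * α⁻¹) ^ b = β ^ b * (α ^ b)⁻¹ := by
            rw [(hc.symm.inv_right).mul_pow, inv_pow]
          have h2 : α ^ (w - b) = α ^ w * (α ^ b)⁻¹ := pow_sub α hwb.le
          rw [h1, h2]
          exact hs ((α ^ b)⁻¹ z))
      refine ⟨Option κ, inferInstance,
        { al := fun o => o.elim a D.al
          yt := fun o => o.elim y D.yt
          sz := fun o => o.elim b D.sz
          L := fun o => o.elim lo D.L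
          U := fun o => o.elim up D.U
          S := fun o => o.elim lt D.S
          R := fun o => o.elim (α * lt) D.R
          pos := ?_, box := ?_, cover := ?_, disj := ?_, bot := ?_, top := ?_, vert := ?_,
          left := ?_, right := ?_, horz := ?_, cell := ?_ }, ?_⟩
      · rintro (_ | f)
        · exact hb
        · exact D.pos f
      · rintro (_ | f)
        · simp only [Option.elim]; omega
        · have := D.box f
          simp only [Option.elim]; omega
      · intro i j hi hj
        by_cases h : i < a + b
        · refine ⟨none, ?_, ?_⟩
          · simp only [Option.elim, In] at hi ⊢; omega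
          · simpa only [Option.elim] using hj
        · obtain ⟨f, h1, h2⟩ := D.cover i j (by simp only [In] at hi ⊢; omega) hj
          exact ⟨some f, h1, h2⟩
      · rintro (_ | f) (_ | g) i j h1 h2 h3 h4
        · rfl
        · exfalso
          have := D.box g
          simp only [Option.elim, In] at *; omega
        · exfalso
          have := D.box f
          simp only [Option.elim, In] at *; omega
        · exact congrArg some (D.disj f g i j h1 h2 h3 h4)
      · rintro (_ | f) h
        · rfl
        · exact D.bot f h
      · rintro (_ | f) h
        · rfl
        · exact D.top f h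
      · rintro (_ | f) (_ | g) i h1 h2 h3
        · exfalso
          simp only [Option.elim] at *; omega
        · exfalso
          have := D.box g
          simp only [Option.elim, In] at *; omega
        · exfalso
          have := D.box f
          simp only [Option.elim, In] at *; omega
        · exact D.vert f g i h1 h2 h3
      · rintro (_ | f) h
        · rfl
        · exfalso
          have := D.box f
          simp only [Option.elim] at *; omega
      · rintro (_ | f) h
        · exfalso
          simp only [Option.elim] at *; omega
        · simp only [Option.elim] at *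
          exact D.right f (by omega)
      · rintro (_ | f) (_ | g) j h1 h2 h3
        · exfalso
          simp only [Option.elim] at *; omega
        · simp only [Option.elim] at *
          exact (D.left g h3.symm).symm
        · exfalso
          have := D.box f
          simp only [Option.elim] at *; omega
        · exact D.horz f g j h1 h2 h3
      · rintro (_ | f) z
        · simp only [Option.elim]
          rw [← hα, mul_assoc, mul_inv_cancel, mul_one]
        · exact D.cell f z
      · rw [Fintype.sum_option]
        simp only [Option.elim]
        rw [hD]
        have h1 : Nat.gcd (w - b) b = Nat.gcd w b := by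
          rw [Nat.gcd_sub_self_left hwb.le]
        have h2 : Nat.gcd w b ≤ b := Nat.gcd_le_right _ hb
        rw [h1]
        omega

end Pool.Agent.Helper72.TL
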