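import Pool.Agent.Helper72.TL.Euclid

/-!
Dissections of a rectangle into rectangles: from rectangles to squares.  The order is reversed
because of the convention of `Pool.Agent.Helper61.TL.Tiling`.
-/

set_option autoImplicit false

namespace Pool.Agent.Helper72.TL

open Pool.Agent.Helper89.TL (RTiling In)

/-- Block R: rectangles to squares. -/
theorem squares {X : Type*} [LinearOrder X] {h k : ℕ} {τ M : X ≃o X} {ι : Type} [Fintype ι]
    (T : RTiling X h k τ M ι) :
    ∃ (κ : Type) (_ : Fintype κ) (U : Pool.Agent.Helper61.TL.Tiling Xᵒᵈ h k τ.dual M.dual κ),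
      ∑ e, U.sz e = ∑ e, (T.wd e + T.ht e - Nat.gcd (T.wd e) (T.ht e)) ∧
      (∀ e, T.al e = 0 → ∀ j, In (T.yt e) (T.ht e) j →
        ∃ f, U.al f = 0 ∧ In (U.yt f) (U.sz f) j ∧ U.lt f = (T.lt e).dual) ∧
      (∀ e, T.al e + T.wd e = k → ∀ j, In (T.yt e) (T.ht e) j →
        ∃ f, U.al f + U.sz f = k ∧ In (U.yt f) (U.sz f) j ∧ U.rt f = (T.rt e).dual) ∧
      (∀ e e' j, In (T.yt e) (T.ht e) j → In (T.yt e') (T.ht e') j → T.al e + T.wd e = T.al e' →
        ∃ f f', In (U.yt f) (U.sz f) j ∧ In (U.yt f') (U.sz f') j ∧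
          U.al f + U.sz f = U.al f' ∧ U.rt f = (T.rt e).dual ∧ U.lt f' = (T.lt e').dual) := by
  have key : ∀ e, ∃ (κ : Type) (_ : Fintype κ)
      (D : Loc X (T.al e) (T.yt e) (T.wd e) (T.ht e) (T.lo e) (T.up e) (T.lt e) (T.rt e) κ),
      ∑ f, D.sz f = T.wd e + T.ht e - Nat.gcd (T.wd e) (T.ht e) := fun e =>
    euclid _ _ _ _ _ _ _ _ _ le_rfl (T.wd_pos e) (T.ht_pos e) (T.comm e) (T.slope e)
  choose κ hκ D hD using key
  -- the cell `(i, j)` of a square is a cell of its rectangle
  have inR : ∀ e f i, In ((D e).al f) ((D e).sz f) i → In (T.al e) (T.wd e) i := by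
    intro e f i h1
    have := (D e).box f
    simp only [In] at *; omega
  have inC : ∀ e f j, In ((D e).yt f) ((D e).sz f) j → In (T.yt e) (T.ht e) j := by
    intro e f j h1
    have := (D e).box f
    simp only [In] at *; omega
  have hvert : ∀ (p q : Σ e, κ e) (i : ℕ), In ((D p.1).al p.2) ((D p.1).sz p.2) i →
      In ((D q.1).al q.2) ((D q.1).sz q.2) i →
      (D p.1).yt p.2 + (D p.1).sz p.2 = (D q.1).yt q.2 → (D p.1).U p.2 = (D q.1).L q.2 := by
    rintro ⟨e, f⟩ ⟨e', f'⟩ i h1 h2 h3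
    by_cases hee : e = e'
    · subst hee
      exact (D e).vert f f' i h1 h2 h3
    · simp only at h1 h2 h3 ⊢
      have b1 := (D e).box f
      have b2 := (D e').box f'
      have p1 := (D e).pos f
      have p2 := (D e').pos f'
      have r1 := inR e f i h1
      have r2 := inR e' f' i h2
      have t1 : (D e).yt f + (D e).sz f = T.yt e + T.ht e := by
        by_contra hne
        refine hee (T.disj e e' i ((D e).yt f + (D e).sz f) r1 ?_ r2 ?_)
        · simp only [In]; omega
        · simp only [In]; omega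
      have t2 : (D e').yt f' = T.yt e' := by
        by_contra hne
        refine hee (T.disj e e' i ((D e').yt f' - 1) r1 ?_ r2 ?_)
        · simp only [In]; omega
        · simp only [In]; omega
      rw [(D e).top f t1, (D e').bot f' t2]
      exact T.vert e e' i r1 r2 (by omega)
  have hhorz : ∀ (p q : Σ e, κ e) (j : ℕ), In ((D p.1).yt p.2) ((D p.1).sz p.2) j →
      In ((D q.1).yt q.2) ((D q.1).sz q.2) j →
      (D p.1).al p.2 + (D p.1).sz p.2 = (D q.1).al q.2 →
      ∀ z, (D p.1).R p.2 z ≤ (D q.1).S q.2 z := by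
    rintro ⟨e, f⟩ ⟨e', f'⟩ j h1 h2 h3
    by_cases hee : e = e'
    · subst hee
      intro z
      rw [(D e).horz f f' j h1 h2 h3]
    · simp only at h1 h2 h3 ⊢
      have b1 := (D e).box f
      have b2 := (D e').box f'
      have p1 := (D e).pos f
      have p2 := (D e').pos f'
      have r1 := inC e f j h1
      have r2 := inC e' f' j h2
      have t1 : (D e).al f + (D e).sz f = T.al e + T.wd e := by
        by_contra hne
        refine hee (T.disj e e' ((D e).al f + (D e).sz f) j ?_ r1 ?_ r2)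
        · simp only [In]; omega
        · simp only [In]; omega
      have t2 : (D e').al f' = T.al e' := by
        by_contra hne
        refine hee (T.disj e e' ((D e').al f' - 1) j ?_ r1 ?_ r2)
        · simp only [In]; omega
        · simp only [In]; omega
      rw [(D e).right f t1, (D e').left f' t2]
      exact T.horz e e' j r1 r2 (by omega)
  refine ⟨Σ e, κ e, inferInstance,
    { al := fun p => (D p.1).al p.2
      yt := fun p => (D p.1).yt p.2
      sz := fun p => (D p.1).sz p.2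
      lo := fun p => ((D p.1).L p.2).dual
      up := fun p => ((D p.1).U p.2).dual
      lt := fun p => ((D p.1).S p.2).dual
      rt := fun p => ((D p.1).R p.2).dual
      pos := fun p => (D p.1).pos p.2
      colb := fun p => ?_, rowb := fun p => ?_, cover := ?_, disj := ?_, bot := ?_, top := ?_,
      vert := ?_, left := ?_, right := ?_, horz := ?_, cell := ?_ }, ?_, ?_, ?_, ?_⟩
  · have := (D p.1).box p.2
    have := T.colb p.1
    omega
  · have := (D p.1).box p.2
    have := T.rowb p.1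
    omega
  · intro i hi j hj
    obtain ⟨e, h1, h2⟩ := T.cover i hi j hj
    obtain ⟨f, h3, h4⟩ := (D e).cover i j h1 h2
    exact ⟨⟨e, f⟩, h3.1, h3.2, h4.1, h4.2⟩
  · rintro ⟨e, f⟩ ⟨e', f'⟩ i j ⟨h1, h2, h3, h4⟩ ⟨h5, h6, h7, h8⟩
    have hee : e = e' := T.disj e e' i j (inR e f i ⟨h1, h2⟩) (inC e f j ⟨h3, h4⟩)
      (inR e' f' i ⟨h5, h6⟩) (inC e' f' j ⟨h7, h8⟩)
    subst hee
    have := (D e).disj f f' i j ⟨h1, h2⟩ ⟨h3, h4⟩ ⟨h5, h6⟩ ⟨h7, h8⟩
    rw [this]
  · rintro ⟨e, f⟩ h0 z
    simp only at h0 ⊢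
    have b1 := (D e).box f
    rw [(D e).bot f (by omega), T.bot e (by omega)]
    rfl
  · rintro ⟨e, f⟩ h0 z
    simp only at h0 ⊢
    have b1 := (D e).box f
    have b2 := T.rowb e
    rw [(D e).top f (by omega), T.top e (by omega)]
  · intro p q i h1 h2 h3 h4 h5 z
    rw [hvert p q i ⟨h1, h2⟩ ⟨h3, h4⟩ h5]
  · rintro ⟨e, f⟩ h0 z
    simp only at h0 ⊢
    have b1 := (D e).box f
    rw [(D e).left f (by omega)]
    exact T.left e (by omega) (OrderDual.ofDual z)
  · rintro ⟨e, f⟩ h0 z
    simp only at h0 ⊢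
    have b1 := (D e).box f
    have b2 := T.colb e
    rw [(D e).right f (by omega)]
    exact T.right e (by omega) (OrderDual.ofDual z)
  · intro p q j h1 h2 h3 h4 h5 z
    exact hhorz p q j ⟨h1, h2⟩ ⟨h3, h4⟩ h5 (OrderDual.ofDual z)
  · rintro ⟨e, f⟩ x y hxy
    obtain ⟨x, rfl⟩ : ∃ w, OrderDual.toDual w = x := ⟨OrderDual.ofDual x, rfl⟩
    obtain ⟨y, rfl⟩ : ∃ w, OrderDual.toDual w = y := ⟨OrderDual.ofDual y, rfl⟩
    have h1 : (D e).L f x ≤ (D e).S f y := hxy
    have h2 := (D e).cell f ((D e).L f x)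
    have h3 : ((D e).U f * ((D e).L f)⁻¹) ((D e).L f x) = (D e).U f x := by
      change (D e).U f (((D e).L f)⁻¹ ((D e).L f x)) = _
      rw [RelIso.inv_apply_self]
    have h4 : ((D e).R f * ((D e).S f)⁻¹) ((D e).S f y) = (D e).R f y := by
      change (D e).R f (((D e).S f)⁻¹ ((D e).S f y)) = _
      rw [RelIso.inv_apply_self]
    have h5 : (D e).U f x ≤ (D e).R f y := by
      rw [← h3, ← h4]
      exact h2.trans (((D e).R f * ((D e).S f)⁻¹).monotone h1)
    exact h5
  · rw [Fintype.sum_sigma]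
    exact Finset.sum_congr rfl fun e _ => hD e
  · intro e h0 j hj
    have w1 := T.wd_pos e
    obtain ⟨f, h1, h2⟩ := (D e).cover (T.al e) j ⟨le_rfl, by omega⟩ hj
    have b1 := (D e).box f
    have h3 : (D e).al f = T.al e := le_antisymm h1.1 b1.1
    exact ⟨⟨e, f⟩, by simp only; omega, h2, by simp only; rw [(D e).left f h3]⟩
  · intro e h0 j hj
    have w1 := T.wd_pos e
    obtain ⟨f, h1, h2⟩ := (D e).cover (T.al e + T.wd e - 1) j ⟨by omega, by omega⟩ hj
    have b1 := (D e).box f
    have h3 : (D e).al f + (D e).sz f = T.al e + T.wd e := by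
      simp only [In] at h1; omega
    exact ⟨⟨e, f⟩, by simp only; omega, h2, by simp only; rw [(D e).right f h3]⟩
  · intro e e' j hj hj' h0
    have w1 := T.wd_pos e
    have w2 := T.wd_pos e'
    obtain ⟨f, h1, h2⟩ := (D e).cover (T.al e + T.wd e - 1) j ⟨by omega, by omega⟩ hj
    obtain ⟨f', h3, h4⟩ := (D e').cover (T.al e') j ⟨le_rfl, by omega⟩ hj'
    have b1 := (D e).box f
    have b2 := (D e').box f'
    have h5 : (D e).al f + (D e).sz f = T.al e + T.wd e := by
      simp only [In] at h1; omega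
    have h6 : (D e').al f' = T.al e' := le_antisymm h3.1 b2.1
    exact ⟨⟨e, f⟩, ⟨e', f'⟩, h2, h4, by simp only; omega, by simp only; rw [(D e).right f h5],
      by simp only; rw [(D e').left f' h6]⟩

end Pool.Agent.Helper72.TL
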