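import Pool.Agent.Helper89.TL.Rect
import Pool.Agent.Helper32.TI.Gcd
import Pool.Agent.Helper72.TL.Squares

/-!
Dissections of a rectangle into rectangles: the weak inequality, which needs only that the sum of
the sizes is less than `h + k + gcd (h, k)`.
-/

set_option autoImplicit false

namespace Pool.Agent.Helper72.TL

open Pool.Agent.Helper89.TL (RTiling In)

/-- Powers of the dual. -/
theorem dual_pow {X : Type*} [LinearOrder X] (τ : X ≃o X) (n : ℕ) (z : X) :
    (τ.dual ^ n) (OrderDual.toDual z) = OrderDual.toDual ((τ ^ n) z) := by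
  induction n generalizing z with
  | zero => rfl
  | succ n ih =>
    rw [pow_succ, pow_succ]
    exact ih (τ z)

/-- Block G, weak form (from squares). -/
theorem weak {X : Type*} [LinearOrder X] [Nonempty X] {h k : ℕ} {τ M : X ≃o X} {κ : Type*}
    [Fintype κ] (U : Pool.Agent.Helper61.TL.Tiling Xᵒᵈ h k τ.dual M.dual κ)
    (hh : 0 < h) (hk : 0 < k) (hc : Commute τ M)
    (hsum : ∑ e, U.sz e < h + k + Nat.gcd h k) :
    ∃ z, (τ ^ (k / Nat.gcd h k)) z ≤ (M ^ (h / Nat.gcd h k)) z := by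
  by_contra hcon
  push Not at hcon
  have h1 := U.rect_gcd hk hh hsum (fun z => by
      have := congrArg (fun f : X ≃o X => f (OrderDual.ofDual z)) hc.eq
      exact congrArg OrderDual.toDual this) (fun z => by
      obtain ⟨z, rfl⟩ : ∃ w, OrderDual.toDual w = z := ⟨OrderDual.ofDual z, rfl⟩
      rw [dual_pow, dual_pow]
      exact (hcon z).le)
  obtain ⟨z⟩ := ‹Nonempty X›
  have h2 := h1 (OrderDual.toDual z)
  rw [dual_pow, dual_pow] at h2
  exact absurd (OrderDual.toDual.injective h2) (hcon z).ne'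

/-- Block G, weak form. -/
theorem rtiling_weak {X : Type*} [LinearOrder X] [Nonempty X] {h k : ℕ} {τ M : X ≃o X} {ι : Type}
    [Fintype ι] (T : RTiling X h k τ M ι) (hh : 0 < h) (hk : 0 < k) (hc : Commute τ M)
    (hsum : ∑ e, (T.wd e + T.ht e - Nat.gcd (T.wd e) (T.ht e)) < h + k + Nat.gcd h k)
    (hR : ∃ (κ : Type) (_ : Fintype κ) (U : Pool.Agent.Helper61.TL.Tiling Xᵒᵈ h k τ.dual M.dual κ),
      ∑ e, U.sz e = ∑ e, (T.wd e + T.ht e - Nat.gcd (T.wd e) (T.ht e))) :
    ∃ z, (τ ^ (k / Nat.gcd h k)) z ≤ (M ^ (h / Nat.gcd h k)) z := by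
  obtain ⟨κ, _, U, hU⟩ := hR
  exact weak U hh hk hc (hU ▸ hsum)

/-- Rectangles, weak form. -/
theorem rect_weak {X : Type*} [LinearOrder X] [Nonempty X] {h k : ℕ} {τ M : X ≃o X} {ι : Type}
    [Fintype ι] (T : RTiling X h k τ M ι) (hh : 0 < h) (hk : 0 < k) (hc : Commute τ M)
    (hsum : ∑ e, (T.wd e + T.ht e - Nat.gcd (T.wd e) (T.ht e)) < h + k + Nat.gcd h k) :
    ∃ z, (τ ^ (k / Nat.gcd h k)) z ≤ (M ^ (h / Nat.gcd h k)) z := by
  obtain ⟨κ, i, U, h1, -⟩ := squares T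
  exact rtiling_weak T hh hk hc hsum ⟨κ, i, U, h1⟩

end Pool.Agent.Helper72.TL
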